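import Pool.Agent.H97.PK.Targets

/-!
Module CNS of the board `pk_modules` (MP_9d526a_co): the constants (target `T_CON`).
-/

set_option autoImplicit false

open MeasureTheory Set Metric Real
open scoped ENNReal

namespace Pool.Agent.H48.PK

open Pool.Agent.H97.PK

theorem pf_cns : T_CON := by
  intro d hd
  have hd1 : (1 : ℝ) ≤ d := by exact_mod_cast hd
  have hd0 : (0 : ℝ) < d := by linarith
  have hN : (2 : ℝ) ≤ (d : ℝ) + 1 := by linarith
  have hN0 : (0 : ℝ) < (d : ℝ) + 1 := by linarith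
  have hL : (0.693 : ℝ) ≤ log ((d : ℝ) + 1) := by
    have h1 := Real.log_two_gt_d9
    have h2 := Real.log_le_log (by norm_num : (0 : ℝ) < 2) hN
    linarith
  set N : ℝ := (d : ℝ) + 1 with hNd
  set L : ℝ := log N with hLd
  have ht : (1.386 : ℝ) ≤ N * L := by nlinarith
  refine ⟨⌈3 * (N * L)⌉₊, ⌈3 * (N * L) + 1⌉₊, ?_, ?_, ?_⟩
  · have h1 : 3 * (N * L) ≤ (⌈3 * (N * L)⌉₊ : ℝ) := Nat.le_ceil _
    have h2 : 1 / N ≤ log (1 + 1 / (d : ℝ)) := by
      have h3 := Real.one_sub_inv_le_log_of_pos (show (0 : ℝ) < 1 + 1 / (d : ℝ) by positivity)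
      have h4 : 1 - (1 + 1 / (d : ℝ))⁻¹ = 1 / N := by
        rw [hNd]
        field_simp
        ring
      rw [h4] at h3
      exact h3
    have h3 : 3 * L ≤ log (1 + 1 / (d : ℝ)) * (⌈3 * (N * L)⌉₊ : ℝ) := by
      calc 3 * L = 1 / N * (3 * (N * L)) := by field_simp
        _ ≤ log (1 + 1 / (d : ℝ)) * (⌈3 * (N * L)⌉₊ : ℝ) :=
            mul_le_mul h2 h1 (by positivity) (le_trans (by positivity) h2)
    have h4 : (1 + 1 / (d : ℝ)) ^ ⌈3 * (N * L)⌉₊ =
        exp (log (1 + 1 / (d : ℝ)) * (⌈3 * (N * L)⌉₊ : ℝ)) := by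
      rw [← Real.rpow_def_of_pos (by positivity), Real.rpow_natCast]
    rw [h4]
    calc (d : ℝ) * N ^ 2 ≤ N ^ 3 := by
          rw [pow_succ N 2, mul_comm (d : ℝ)]
          exact mul_le_mul_of_nonneg_left (by linarith) (by positivity)
      _ = exp (3 * L) := by
          rw [show (3 : ℝ) * L = ((3 : ℕ) : ℝ) * L by norm_num, Real.exp_nat_mul,
            Real.exp_log hN0]
      _ ≤ _ := Real.exp_le_exp.2 h3
  · refine le_trans ?_ (Nat.le_ceil _)
    have h1 : log (N * (1 + (d : ℝ) ^ 2)) ≤ 3 * L := by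
      have h2 : N * (1 + (d : ℝ) ^ 2) ≤ N ^ 3 := by
        rw [pow_succ' N 2]
        refine mul_le_mul_of_nonneg_left ?_ hN0.le
        rw [hNd]
        nlinarith
      calc log (N * (1 + (d : ℝ) ^ 2)) ≤ log (N ^ 3) := Real.log_le_log (by positivity) h2
        _ = 3 * L := by rw [Real.log_pow, hLd]; norm_num
    nlinarith
  · have hK := Nat.ceil_lt_add_one (show 0 ≤ 3 * (N * L) by positivity)
    have hJ := Nat.ceil_lt_add_one (show 0 ≤ 3 * (N * L) + 1 by positivity)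
    set K : ℝ := (⌈3 * (N * L)⌉₊ : ℝ)
    set J : ℝ := (⌈3 * (N * L) + 1⌉₊ : ℝ)
    have hJ0 : 0 ≤ J := Nat.cast_nonneg _
    have h1 : K + 1 ≤ 4.45 * (N * L) := by linarith
    have h2 : 17 + 81 * J ≤ 373 * (N * L) := by linarith
    have h3 : 2 * exp 2 ≤ 14.7782 := by
      have h4 : exp 2 = exp 1 * exp 1 := by rw [← Real.exp_add]; norm_num
      rw [h4]
      nlinarith [Real.exp_one_lt_d9, Real.exp_pos 1]
    have h5 : (K + 1) * N * (17 + 81 * J) ≤ 4.45 * (N * L) * N * (373 * (N * L)) := by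
      refine mul_le_mul (mul_le_mul_of_nonneg_right h1 hN0.le) h2 (by positivity) (by positivity)
    calc 2 * exp 2 * ((K + 1) * N * (17 + 81 * J)) ≤
        14.7782 * (4.45 * (N * L) * N * (373 * (N * L))) :=
          mul_le_mul h3 h5 (by positivity) (by norm_num)
      _ = (14.7782 * 4.45 * 373) * (N ^ 3 * L ^ 2) := by ring
      _ ≤ 25000 * (N ^ 3 * L ^ 2) :=
          mul_le_mul_of_nonneg_right (by norm_num) (by positivity)
      _ = 25000 * N ^ 3 * L ^ 2 := by ring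

end Pool.Agent.H48.PK
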