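import Pool.Agent.H97.PK.Targets2

/-!
Module NM4 of the board `pk_modules` (MP_9d526a_co): numerics for `d = 4`.
-/

set_option autoImplicit false

open MeasureTheory Set Metric Real
open scoped ENNReal

namespace Pool.Agent.H48.PK

open Pool.Agent.H97.PK

theorem pf_nm4 : T_NM4 := by
  have h3 : (0 : ℝ) ≤ √3 := Real.sqrt_nonneg 3
  have hs : √3 * √3 = 3 := Real.mul_self_sqrt (by norm_num)
  have h1 : (1 : ℝ) ≤ √3 := by nlinarith
  have e0 : (((2 : ℕ) : ℝ) / 2 - 1) = 0 := by norm_num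
  have e2 : ∀ s : ℝ, s ^ (((4 : ℕ) : ℝ) / 2) = s ^ 2 := by
    intro s
    rw [show (((4 : ℕ) : ℝ) / 2) = ((2 : ℕ) : ℝ) by norm_num, Real.rpow_natCast]
  have i0 : ∫ s in Ioc (0 : ℝ) (√3), (1 : ℝ) * (√3 - s) ^ (((2 : ℕ) : ℝ) / 2 - 1) = √3 := by
    simp_rw [e0, Real.rpow_zero]
    rw [← intervalIntegral.integral_of_le h3]
    simp
  have ii : ∫ s in Ioc (0 : ℝ) (√3), s ^ (((4 : ℕ) : ℝ) / 2) *
      (√3 - s) ^ (((2 : ℕ) : ℝ) / 2 - 1) = √3 := by
    simp_rw [e0, Real.rpow_zero, e2, mul_one]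
    rw [← intervalIntegral.integral_of_le h3, integral_pow]
    norm_num
    have : √3 ^ 3 = 3 * √3 := by
      calc √3 ^ 3 = (√3 * √3) * √3 := by ring
        _ = 3 * √3 := by rw [hs]
    rw [this]
    ring
  have i1 : ∫ s in Ioc (0 : ℝ) (√3), min 1 (s ^ (((4 : ℕ) : ℝ) / 2)) *
      (√3 - s) ^ (((2 : ℕ) : ℝ) / 2 - 1) = √3 - 2 / 3 := by
    simp_rw [e0, Real.rpow_zero, e2, mul_one]
    rw [← intervalIntegral.integral_of_le h3]
    have hc : Continuous (fun s : ℝ => min 1 (s ^ 2)) := by fun_prop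
    rw [← intervalIntegral.integral_add_adjacent_intervals (b := 1)
      (hc.intervalIntegrable _ _) (hc.intervalIntegrable _ _)]
    have a1 : ∫ s in (0 : ℝ)..1, min 1 (s ^ 2) = ∫ s in (0 : ℝ)..1, s ^ 2 := by
      refine intervalIntegral.integral_congr fun s hs => ?_
      rw [uIcc_of_le zero_le_one] at hs
      exact min_eq_right (pow_le_one₀ hs.1 hs.2)
    have a2 : ∫ s in (1 : ℝ)..(√3), min 1 (s ^ 2) = ∫ s in (1 : ℝ)..(√3), (1 : ℝ) := by
      refine intervalIntegral.integral_congr fun s hs => ?_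
      rw [uIcc_of_le h1] at hs
      exact min_eq_left (one_le_pow₀ hs.1)
    rw [a1, a2, integral_pow]
    norm_num
    ring
  have hfin : (27 + 6 * √3) / 23 * (√3 - 2 / 3) = √3 := by
    have : (27 + 6 * √3) * (√3 - 2 / 3) = 23 * √3 := by
      calc (27 + 6 * √3) * (√3 - 2 / 3) = 23 * √3 + 6 * (√3 * √3) - 18 := by ring
        _ = 23 * √3 := by rw [hs]; ring
    rw [div_mul_eq_mul_div, this]
    ring
  unfold T_NM4
  rw [i0, ii, i1, hfin]
  exact ⟨le_rfl, le_rfl⟩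

end Pool.Agent.H48.PK
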